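import Pool.Agent.Helper47.FLG.Alg

/-! Packet FLG-SCA: scalar inequalities. -/

set_option autoImplicit false

namespace Pool.Agent.Helper47.FLG

open Pool.Agent.Helper47.RFn

namespace SCAaux

lemma quad {A B C X Y : ℝ} (hA : 0 < A) (h : C ^ 2 ≤ A * B) :
    0 ≤ A * X ^ 2 + 2 * C * X * Y + B * Y ^ 2 := by
  have h1 : A * (A * X ^ 2 + 2 * C * X * Y + B * Y ^ 2) =
      (A * X + C * Y) ^ 2 + (A * B - C ^ 2) * Y ^ 2 := by ring
  have h2 : 0 ≤ A * (A * X ^ 2 + 2 * C * X * Y + B * Y ^ 2) := by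
    rw [h1]
    have : 0 ≤ (A * B - C ^ 2) * Y ^ 2 := mul_nonneg (by linarith) (sq_nonneg _)
    have := sq_nonneg (A * X + C * Y)
    linarith
  exact nonneg_of_mul_nonneg_right h2 hA

lemma quad0 {A B C X Y : ℝ} (hA : 0 < A) (h : C ^ 2 < A * B)
    (h0 : A * X ^ 2 + 2 * C * X * Y + B * Y ^ 2 = 0) : X = 0 ∧ Y = 0 := by
  have h1 : A * (A * X ^ 2 + 2 * C * X * Y + B * Y ^ 2) =
      (A * X + C * Y) ^ 2 + (A * B - C ^ 2) * Y ^ 2 := by ring
  rw [h0, mul_zero] at h1
  have h2 : 0 ≤ (A * B - C ^ 2) * Y ^ 2 := mul_nonneg (by linarith) (sq_nonneg _)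
  have h3 := sq_nonneg (A * X + C * Y)
  have h4 : (A * B - C ^ 2) * Y ^ 2 = 0 := by linarith
  have h5 : Y = 0 := by
    rcases mul_eq_zero.1 h4 with h | h
    · exfalso; linarith
    · exact pow_eq_zero_iff (two_ne_zero) |>.1 h
  subst h5
  have h6 : (A * X) ^ 2 = 0 := by
    have : (A * X + C * 0) ^ 2 = 0 := by linarith
    simpa using this
  have h7 : A * X = 0 := pow_eq_zero_iff (two_ne_zero) |>.1 h6
  exact ⟨(mul_eq_zero.1 h7).resolve_left hA.ne', rfl⟩

lemma one : ∀ p q a b : ℝ, 1 ≤ p → p ≤ 4 → 1 ≤ q → q ≤ 4 → (p = 4 → 2 * a = b) →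
    (q = 4 → 2 * b = a) →
    0 ≤ q * ((2 * a - b) ^ 2 / (4 - p)) + p * ((2 * b - a) ^ 2 / (4 - q)) -
      (a ^ 2 + b ^ 2 - 4 * a * b) ∧
    (q * ((2 * a - b) ^ 2 / (4 - p)) + p * ((2 * b - a) ^ 2 / (4 - q)) -
      (a ^ 2 + b ^ 2 - 4 * a * b) = 0 →
      (p = 1 ∧ q = 1 ∧ a + b = 0) ∨ (a = 0 ∧ b = 0)) := by
  intro p q a b hp1 hp4 hq1 hq4 hp hq
  rcases eq_or_lt_of_le hp4 with hp' | hp'
  · have hb := hp hp'
    subst hb
    rcases eq_or_lt_of_le hq4 with hq' | hq'
    · have ha : a = 0 := by have := hq hq'; linarith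
      subst ha
      norm_num
    · have hv : 0 < 4 - q := by linarith
      have e : q * ((2 * a - 2 * a) ^ 2 / (4 - p)) + p * ((2 * (2 * a) - a) ^ 2 / (4 - q)) -
          (a ^ 2 + (2 * a) ^ 2 - 4 * a * (2 * a)) = a ^ 2 * (9 * p / (4 - q) + 3) := by
        field_simp
        ring
      have h1 : 0 < 9 * p / (4 - q) + 3 := by positivity
      rw [e]
      refine ⟨by positivity, fun h => Or.inr ?_⟩
      have h2 : a = 0 := by
        rcases mul_eq_zero.1 h with h | h
        · exact pow_eq_zero_iff (two_ne_zero) |>.1 h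
        · exfalso; linarith
      subst h2
      simp
  · rcases eq_or_lt_of_le hq4 with hq' | hq'
    · have ha := hq hq'
      subst ha
      have hv : 0 < 4 - p := by linarith
      have e : q * ((2 * (2 * b) - b) ^ 2 / (4 - p)) + p * ((2 * b - 2 * b) ^ 2 / (4 - q)) -
          ((2 * b) ^ 2 + b ^ 2 - 4 * (2 * b) * b) = b ^ 2 * (9 * q / (4 - p) + 3) := by
        field_simp
        ring
      have h1 : 0 < 9 * q / (4 - p) + 3 := by positivity
      rw [e]
      refine ⟨by positivity, fun h => Or.inr ?_⟩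
      have h2 : b = 0 := by
        rcases mul_eq_zero.1 h with h | h
        · exact pow_eq_zero_iff (two_ne_zero) |>.1 h
        · exfalso; linarith
      subst h2
      simp
    · have hu : 0 < 4 - p := by linarith
      have hv : 0 < 4 - q := by linarith
      set A := q / (4 - p) + 1 / 3 with hA
      set B := p / (4 - q) + 1 / 3 with hB
      have hA0 : 0 < A := by positivity
      have e : q * ((2 * a - b) ^ 2 / (4 - p)) + p * ((2 * b - a) ^ 2 / (4 - q)) -
          (a ^ 2 + b ^ 2 - 4 * a * b) =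
          A * (2 * a - b) ^ 2 + 2 * (2 / 3) * (2 * a - b) * (2 * b - a) + B * (2 * b - a) ^ 2 := by
        rw [hA, hB]
        field_simp
        ring
      have hAB : A * B - (2 / 3) ^ 2 =
          (8 * (p + q) - 16 - (p - q) ^ 2) / (3 * (4 - p) * (4 - q)) := by
        rw [hA, hB]
        field_simp
        ring
      have hf : 0 ≤ 8 * (p + q) - 16 - (p - q) ^ 2 := by
        nlinarith [mul_nonneg (sub_nonneg.2 hp1) (sub_nonneg.2 hq1),
          mul_nonneg (sub_nonneg.2 hp1) hu.le, mul_nonneg (sub_nonneg.2 hq1) hv.le]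
      have hf2 : ¬ (p = 1 ∧ q = 1) → 0 < 8 * (p + q) - 16 - (p - q) ^ 2 := by
        intro h
        rcases eq_or_lt_of_le hp1 with h1 | h1
        · have h2 : 1 < q := by
            rcases eq_or_lt_of_le hq1 with h3 | h3
            · exact absurd ⟨h1.symm, h3.symm⟩ h
            · exact h3
          nlinarith [mul_nonneg (sub_nonneg.2 hp1) (sub_nonneg.2 hq1),
            mul_nonneg (sub_nonneg.2 hp1) hu.le, mul_nonneg (sub_nonneg.2 hq1) hv.le]
        · nlinarith [mul_nonneg (sub_nonneg.2 hp1) (sub_nonneg.2 hq1),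
            mul_nonneg (sub_nonneg.2 hp1) hu.le, mul_nonneg (sub_nonneg.2 hq1) hv.le]
      rw [e]
      constructor
      · apply quad hA0
        have : 0 ≤ (8 * (p + q) - 16 - (p - q) ^ 2) / (3 * (4 - p) * (4 - q)) := by positivity
        linarith
      · intro h0
        by_cases h : p = 1 ∧ q = 1
        · left
          refine ⟨h.1, h.2, ?_⟩
          rw [h.1, h.2] at hA hB
          rw [hA, hB] at h0
          have : (a + b) ^ 2 = 0 := by nlinarith
          exact pow_eq_zero_iff (two_ne_zero) |>.1 this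
        · right
          have h3 := hf2 h
          have : 0 < (8 * (p + q) - 16 - (p - q) ^ 2) / (3 * (4 - p) * (4 - q)) := by positivity
          obtain ⟨h4, h5⟩ := quad0 hA0 (by linarith) h0
          constructor <;> linarith

lemma two : ∀ p q a b : ℝ, 1 ≤ p → p ≤ 4 → 1 ≤ q → q ≤ 4 → (p = 1 → 2 * a = b) →
    (q = 1 → 2 * b = a) →
    0 ≤ q * ((2 * a - b) ^ 2 / (p - 1)) + p * ((2 * b - a) ^ 2 / (q - 1)) +
      (a ^ 2 + b ^ 2 - 4 * a * b) ∧
    (q * ((2 * a - b) ^ 2 / (p - 1)) + p * ((2 * b - a) ^ 2 / (q - 1)) +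
      (a ^ 2 + b ^ 2 - 4 * a * b) = 0 →
      (p = 4 ∧ q = 1 ∧ a = 2 * b) ∨ (p = 1 ∧ q = 4 ∧ b = 2 * a) ∨ (a = 0 ∧ b = 0)) := by
  intro p q a b hp1 hp4 hq1 hq4 hp hq
  rcases eq_or_lt_of_le hp1 with hp' | hp'
  · have hb := hp hp'.symm
    subst hb
    rcases eq_or_lt_of_le hq1 with hq' | hq'
    · have ha : a = 0 := by have := hq hq'.symm; linarith
      subst ha
      norm_num
    · have hv : 0 < q - 1 := by linarith
      subst hp'
      have e : q * ((2 * a - 2 * a) ^ 2 / (1 - 1)) + 1 * ((2 * (2 * a) - a) ^ 2 / (q - 1)) +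
          (a ^ 2 + (2 * a) ^ 2 - 4 * a * (2 * a)) = 3 * a ^ 2 * ((4 - q) / (q - 1)) := by
        rw [sub_self, zero_pow two_ne_zero, zero_div, mul_zero]
        field_simp
        ring
      rw [e]
      have h1 : 0 ≤ 4 - q := by linarith
      refine ⟨by positivity, fun h => Or.inr ?_⟩
      rcases mul_eq_zero.1 h with h | h
      · right
        have h2 : a = 0 := by
          have : a ^ 2 = 0 := by linarith
          exact pow_eq_zero_iff (two_ne_zero) |>.1 this
        subst h2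
        simp
      · left
        rcases div_eq_zero_iff.1 h with h | h
        · exact ⟨rfl, by linarith, rfl⟩
        · exfalso; linarith
  · rcases eq_or_lt_of_le hq1 with hq' | hq'
    · have ha := hq hq'.symm
      subst ha
      have hv : 0 < p - 1 := by linarith
      subst hq'
      have e : 1 * ((2 * (2 * b) - b) ^ 2 / (p - 1)) + p * ((2 * b - 2 * b) ^ 2 / (1 - 1)) +
          ((2 * b) ^ 2 + b ^ 2 - 4 * (2 * b) * b) = 3 * b ^ 2 * ((4 - p) / (p - 1)) := by
        rw [sub_self, zero_pow two_ne_zero, zero_div, mul_zero]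
        field_simp
        ring
      rw [e]
      have h1 : 0 ≤ 4 - p := by linarith
      refine ⟨by positivity, fun h => ?_⟩
      rcases mul_eq_zero.1 h with h | h
      · right; right
        have h2 : b = 0 := by
          have : b ^ 2 = 0 := by linarith
          exact pow_eq_zero_iff (two_ne_zero) |>.1 this
        subst h2
        simp
      · left
        rcases div_eq_zero_iff.1 h with h | h
        · exact ⟨by linarith, rfl, rfl⟩
        · exfalso; linarith
    · have hu : 0 < p - 1 := by linarith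
      have hv : 0 < q - 1 := by linarith
      set A := q / (p - 1) - 1 / 3 with hA
      set B := p / (q - 1) - 1 / 3 with hB
      have hA0 : 0 < A := by
        have : A = (3 * q - p + 1) / (3 * (p - 1)) := by
          rw [hA]; field_simp; ring
        rw [this]
        apply div_pos
        · linarith
        · linarith
      have e : q * ((2 * a - b) ^ 2 / (p - 1)) + p * ((2 * b - a) ^ 2 / (q - 1)) +
          (a ^ 2 + b ^ 2 - 4 * a * b) =
          A * (2 * a - b) ^ 2 + 2 * (-(2 / 3)) * (2 * a - b) * (2 * b - a) +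
            B * (2 * b - a) ^ 2 := by
        rw [hA, hB]
        field_simp
        ring
      have hAB : A * B - (-(2 / 3)) ^ 2 =
          (2 * (p + q) - 1 - (p - q) ^ 2) / (3 * (p - 1) * (q - 1)) := by
        rw [hA, hB]
        field_simp
        ring
      have hf : 0 < 2 * (p + q) - 1 - (p - q) ^ 2 := by
        rcases le_total p q with h | h
        · nlinarith [mul_nonneg (sub_nonneg.2 h) (sub_nonneg.2 hq4), mul_pos hu hv]
        · nlinarith [mul_nonneg (sub_nonneg.2 h) (sub_nonneg.2 hp4), mul_pos hu hv]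
      have h6 : 0 < (2 * (p + q) - 1 - (p - q) ^ 2) / (3 * (p - 1) * (q - 1)) := by positivity
      rw [e]
      constructor
      · apply quad hA0
        linarith
      · intro h0
        right; right
        obtain ⟨h4, h5⟩ := quad0 hA0 (by linarith) h0
        constructor <;> linarith

lemma three : ∀ s w : ℝ, 0 ≤ s → s ≤ 3 → (s = 0 → w = 0) → (s = 3 → w = 0) →
    0 ≤ 64 * w ^ 2 / (3 - s) + 4 * w ^ 2 / s - 12 * w ^ 2 ∧
    (64 * w ^ 2 / (3 - s) + 4 * w ^ 2 / s - 12 * w ^ 2 = 0 → w = 0) := by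
  intro s w h0 h3 hs0 hs3
  rcases eq_or_lt_of_le h0 with h | h
  · have := hs0 h.symm
    subst this
    norm_num
  rcases eq_or_lt_of_le h3 with h' | h'
  · have := hs3 h'
    subst this
    norm_num
  have hu : 0 < 3 - s := by linarith
  have e : 64 * w ^ 2 / (3 - s) + 4 * w ^ 2 / s - 12 * w ^ 2 =
      w ^ 2 * (12 * (s + 1) ^ 2 / (s * (3 - s))) := by
    field_simp
    ring
  have h1 : 0 < 12 * (s + 1) ^ 2 / (s * (3 - s)) := by positivity
  rw [e]
  refine ⟨by positivity, fun h => ?_⟩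
  rcases mul_eq_zero.1 h with h | h
  · exact pow_eq_zero_iff (two_ne_zero) |>.1 h
  · exfalso; linarith

lemma four : ∀ s β γ : ℝ, 0 ≤ s → s ≤ 3 → (s = 0 → 2 * β + γ = 0) → (s = 3 → β = γ) →
    0 ≤ 16 * (2 * β + γ) ^ 2 / s + (β - γ) ^ 2 / (3 - s) + 5 / 3 * (1 + s) * (β + 2 * γ) ^ 2 +
      3 * γ ^ 2 + 6 * β ^ 2 + 18 * β * γ ∧
    (16 * (2 * β + γ) ^ 2 / s + (β - γ) ^ 2 / (3 - s) + 5 / 3 * (1 + s) * (β + 2 * γ) ^ 2 +
      3 * γ ^ 2 + 6 * β ^ 2 + 18 * β * γ = 0 → (s = 0 ∧ γ = -2 * β) ∨ (β = 0 ∧ γ = 0)) := by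
  intro s β γ h0 h3 hs0 hs3
  rcases eq_or_lt_of_le h0 with h | h
  · have h1 : γ = -2 * β := by have := hs0 h.symm; linarith
    subst h
    subst h1
    refine ⟨le_of_eq ?_, fun _ => Or.inl ⟨rfl, rfl⟩⟩
    rw [div_zero]
    ring
  rcases eq_or_lt_of_le h3 with h' | h'
  · have := hs3 h'
    subst this
    subst h'
    have e : 16 * (2 * β + β) ^ 2 / 3 + (β - β) ^ 2 / (3 - 3) + 5 / 3 * (1 + 3) * (β + 2 * β) ^ 2 +
      3 * β ^ 2 + 6 * β ^ 2 + 18 * β * β = 135 * β ^ 2 := by
      rw [sub_self, zero_pow two_ne_zero, zero_div]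
      ring
    rw [e]
    refine ⟨by positivity, fun h => Or.inr ?_⟩
    have h1 : β = 0 := by
      have : β ^ 2 = 0 := by linarith
      exact pow_eq_zero_iff (two_ne_zero) |>.1 this
    exact ⟨h1, h1⟩
  have hu : 0 < 3 - s := by linarith
  set A := (48 + 14 * s + 5 * s ^ 2) / (3 * s) with hA
  set B := s * (16 - 5 * s) / (3 * (3 - s)) with hB
  have hA0 : 0 < A := by positivity
  have e : 16 * (2 * β + γ) ^ 2 / s + (β - γ) ^ 2 / (3 - s) + 5 / 3 * (1 + s) * (β + 2 * γ) ^ 2 +
      3 * γ ^ 2 + 6 * β ^ 2 + 18 * β * γ =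
      A * (2 * β + γ) ^ 2 + 2 * (-(8 + 5 * s) / 3) * (2 * β + γ) * (β - γ) + B * (β - γ) ^ 2 := by
    rw [hA, hB]
    field_simp
    ring
  have hAB : A * B - (-(8 + 5 * s) / 3) ^ 2 = (192 - 64 * s + 5 * s ^ 2) / (3 * (3 - s)) := by
    rw [hA, hB]
    field_simp
    ring
  have hf : 0 < 192 - 64 * s + 5 * s ^ 2 := by nlinarith
  have h6 : 0 < (192 - 64 * s + 5 * s ^ 2) / (3 * (3 - s)) := by positivity
  rw [e]
  constructor
  · apply quad hA0
    linarith
  · intro h0
    right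
    obtain ⟨h4, h5⟩ := quad0 hA0 (by linarith) h0
    constructor <;> linarith

end SCAaux

theorem g_SCA : G_SCA := by
  refine ⟨?_, ?_, ?_, ?_⟩
  · intro p q a b h1 h2 h3 h4 h5 h6
    exact SCAaux.one p q a b h1 h2 h3 h4 h5 h6
  · intro p q a b h1 h2 h3 h4 h5 h6
    exact SCAaux.two p q a b h1 h2 h3 h4 h5 h6
  · exact SCAaux.three
  · exact SCAaux.four

end Pool.Agent.Helper47.FLG
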