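import Pool.Agent.Helper47.FLG.Pde
import Pool.Agent.Helper2.RFn.INV
import Pool.Agent.Helper13.RFn.STP

/-! Packet FLG-SFB: the second soft estimate. -/

set_option autoImplicit false

namespace Pool.Agent.Helper47.FLG

open Finset Pool.Agent.Helper47.RFn

noncomputable section

namespace SFBaux

variable {n : ℕ} {T : ℝ}

/-- the functional `m` -/
def mT (ε : ℝ) (M : M2 n) (S : T4 n) : ℝ := (∑ a, ∑ b, M a b * Ric0 S a b) - ε * lam S

lemma ric0_le (hn : 1 ≤ n) {R : T4 n} {C : ℝ} (hC : ∀ i j k l, |R i j k l| ≤ C) (x y : Fin n) :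
    |Ric0 R x y| ≤ 2 * n * C := by
  have h0 : 0 ≤ C := (abs_nonneg _).trans (hC x x x x)
  have hl := STPaux.lam_le hn hC
  have e : Ric0 R x y = Ric R x y - lam R * (1 : M2 n) x y := rfl
  rw [e]
  have h1 := abs_sub (Ric R x y) (lam R * (1 : M2 n) x y)
  have h2 : |lam R * (1 : M2 n) x y| ≤ n * C * 1 := by
    rw [abs_mul]
    exact mul_le_mul hl (STPaux.one_le' x y) (abs_nonneg _) (by positivity)
  linarith [STPaux.ric_le hC x y]

lemma ent_le {M : M2 n} (hM : ∑ a, ∑ b, M a b ^ 2 ≤ 1) (a b : Fin n) : |M a b| ≤ 1 := by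
  have h1 : M a b ^ 2 ≤ ∑ b, M a b ^ 2 :=
    Finset.single_le_sum (f := fun b => M a b ^ 2) (fun _ _ => sq_nonneg _) (mem_univ b)
  have h2 : ∑ b, M a b ^ 2 ≤ ∑ a, ∑ b, M a b ^ 2 :=
    Finset.single_le_sum (f := fun a => ∑ b, M a b ^ 2)
      (fun _ _ => Finset.sum_nonneg fun _ _ => sq_nonneg _) (mem_univ a)
  exact abs_le_one_iff_mul_self_le_one.2 (by nlinarith)

lemma mT_le (hn : 1 ≤ n) {ε : ℝ} (hε : 0 ≤ ε) {M : M2 n} (hM : ∑ a, ∑ b, M a b ^ 2 ≤ 1)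
    {R : T4 n} {C : ℝ} (hC : ∀ i j k l, |R i j k l| ≤ C) :
    |mT ε M R| ≤ (2 * (n : ℝ) ^ 3 + ε * n) * C := by
  have hn0 : (0 : ℝ) < n := by exact_mod_cast hn
  obtain ⟨i0⟩ : Nonempty (Fin n) := ⟨⟨0, by omega⟩⟩
  have h0 : 0 ≤ C := (abs_nonneg _).trans (hC i0 i0 i0 i0)
  have h1 : |∑ a, ∑ b, M a b * Ric0 R a b| ≤ 2 * (n : ℝ) ^ 3 * C := by
    calc |∑ a, ∑ b, M a b * Ric0 R a b| ≤ ∑ a, ∑ b, |M a b * Ric0 R a b| := by
          refine (abs_sum_le_sum_abs _ _).trans (sum_le_sum fun i _ => ?_)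
          exact abs_sum_le_sum_abs _ _
      _ ≤ ∑ _a : Fin n, ∑ _b : Fin n, (2 * n * C) := by
          refine sum_le_sum fun a _ => sum_le_sum fun b _ => ?_
          rw [abs_mul]
          calc |M a b| * |Ric0 R a b| ≤ 1 * (2 * n * C) :=
                mul_le_mul (ent_le hM a b) (ric0_le hn hC a b) (abs_nonneg _) zero_le_one
            _ = 2 * n * C := one_mul _
      _ = _ := by
          simp only [sum_const, card_univ, Fintype.card_fin, nsmul_eq_mul]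
          ring
  have h2 : |ε * lam R| ≤ ε * n * C := by
    rw [abs_mul, abs_of_nonneg hε, mul_assoc]
    exact mul_le_mul_of_nonneg_left (STPaux.lam_le hn hC) hε
  have k1 := abs_le.1 h1
  have k2 := abs_le.1 h2
  unfold mT
  rw [abs_le]
  constructor <;> nlinarith

lemma cs {M : M2 n} (hM : ∑ a, ∑ b, M a b ^ 2 ≤ 1) (S : T4 n) :
    ∑ a, ∑ b, M a b * Ric0 S a b ≤ Real.sqrt (hh S) := by
  apply Real.le_sqrt_of_sq_le
  have h1 := Finset.sum_mul_sq_le_sq_mul_sq (univ ×ˢ univ : Finset (Fin n × Fin n))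
    (fun p => M p.1 p.2) (fun p => Ric0 S p.1 p.2)
  rw [Finset.sum_product, Finset.sum_product, Finset.sum_product] at h1
  have h2 : 0 ≤ hh S := Finset.sum_nonneg fun _ _ => Finset.sum_nonneg fun _ _ => sq_nonneg _
  calc (∑ a, ∑ b, M a b * Ric0 S a b) ^ 2
      ≤ (∑ a, ∑ b, M a b ^ 2) * (∑ a, ∑ b, Ric0 S a b ^ 2) := h1
    _ ≤ 1 * hh S := mul_le_mul_of_nonneg_right hM h2
    _ = hh S := one_mul _

lemma Q_le {R : T4 n} {C : ℝ} (hC : ∀ i j k l, |R i j k l| ≤ C) (a b c d : Fin n) :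
    |Q R a b c d| ≤ 4 * (n : ℝ) ^ 2 * C ^ 2 := by
  have h0 : 0 ≤ C := (abs_nonneg _).trans (hC a b c d)
  have hB : ∀ a b c d, |BB R R a b c d| ≤ (n : ℝ) ^ 2 * C ^ 2 := by
    intro a b c d
    unfold BB
    calc |∑ e, ∑ f, R a e b f * R c e d f| ≤ ∑ e, ∑ f, |R a e b f * R c e d f| := by
          refine (abs_sum_le_sum_abs _ _).trans (sum_le_sum fun i _ => ?_)
          exact abs_sum_le_sum_abs _ _
      _ ≤ ∑ _e : Fin n, ∑ _f : Fin n, C * C := by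
          refine sum_le_sum fun e _ => sum_le_sum fun f _ => ?_
          rw [abs_mul]
          exact mul_le_mul (hC _ _ _ _) (hC _ _ _ _) (abs_nonneg _) h0
      _ = _ := by
          simp only [sum_const, card_univ, Fintype.card_fin, nsmul_eq_mul]
          ring
  have k1 := abs_le.1 (hB a b c d)
  have k2 := abs_le.1 (hB a b d c)
  have k3 := abs_le.1 (hB a c b d)
  have k4 := abs_le.1 (hB a d b c)
  unfold Q
  rw [abs_le]
  constructor <;> linarith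

lemma K2_add (R S : T4 n) (u v : Fin n → ℝ) : K2 (R + S) u v = K2 R u v + K2 S u v := by
  unfold K2
  simp only [← Finset.sum_add_distrib]
  refine sum_congr rfl fun a _ => sum_congr rfl fun b _ => sum_congr rfl fun c _ =>
    sum_congr rfl fun d _ => ?_
  simp only [Pi.add_apply]
  ring

lemma K2_smul (x : ℝ) (R : T4 n) (u v : Fin n → ℝ) : K2 (x • R) u v = x * K2 R u v := by
  unfold K2
  simp only [Finset.mul_sum]
  refine sum_congr rfl fun a _ => sum_congr rfl fun b _ => sum_congr rfl fun c _ =>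
    sum_congr rfl fun d _ => ?_
  simp only [Pi.smul_apply, smul_eq_mul]
  ring

lemma elk_add (hLN : RFn.Goal_LN) (k : ℕ) (R : T4 n) (x : ℝ) (v : Fin n → ℝ)
    (X : Fin k → Fin n → ℝ) :
    elk k (R + x • Id4 n) v X = elk k R v X + x * elk k (Id4 n) v X := by
  obtain ⟨-, -, n3, n4, -, -, -, -, -, -, -, n12, n13, -⟩ := hLN n
  unfold elk
  rw [n3, n4, n12, n13]
  simp only [K2_add, K2_smul, Finset.sum_add_distrib, ← Finset.mul_sum]
  ring

lemma wd_nonneg (u v : Fin n → ℝ) : 0 ≤ wd u v := by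
  have h := Finset.sum_mul_sq_le_sq_mul_sq univ u v
  unfold wd nrm dot
  linarith

lemma FG_Id (hCL : RFn.Goal_CL) (hFG1 : G_FG1) : FG (Id4 n) := by
  refine ⟨(hCL n).2.2.1, fun z x y => ?_⟩
  rw [(hFG1 n).2.2.2.2.2.1]
  have h1 := wd_nonneg x z
  have h2 := wd_nonneg y z
  positivity

lemma Ric0_add (hLN : RFn.Goal_LN) (hn : 1 ≤ n) (R : T4 n) (x : ℝ) :
    Ric0 (R + x • Id4 n) = Ric0 R := by
  obtain ⟨-, -, n3, n4, n5, n6, -, -, n9, n10, -, -, -, -⟩ := hLN n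
  unfold Ric0
  rw [n3, n4, n5, n6, n9, n10 hn, smul_smul, add_smul]
  abel

lemma hh_add (hLN : RFn.Goal_LN) (hn : 1 ≤ n) (R : T4 n) (x : ℝ) :
    hh (R + x • Id4 n) = hh R := by
  unfold hh
  rw [Ric0_add hLN hn]

lemma mT_add (hLN : RFn.Goal_LN) (ε : ℝ) (M : M2 n) (R S : T4 n) :
    mT ε M (R + S) = mT ε M R + mT ε M S := by
  obtain ⟨-, -, n3, n4, n5, n6, -⟩ := hLN n
  have h : ∀ a b, Ric0 (R + S) a b = Ric0 R a b + Ric0 S a b := by
    intro a b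
    have e : Ric0 (R + S) = Ric0 R + Ric0 S := by
      unfold Ric0
      rw [n3, n5, add_smul]
      abel
    rw [e]
    rfl
  unfold mT
  simp only [h, n5, mul_add, Finset.sum_add_distrib]
  ring

lemma mT_smul (hLN : RFn.Goal_LN) (ε : ℝ) (M : M2 n) (x : ℝ) (R : T4 n) :
    mT ε M (x • R) = x * mT ε M R := by
  obtain ⟨-, -, n3, n4, n5, n6, -⟩ := hLN n
  have h : ∀ a b, Ric0 (x • R) a b = x * Ric0 R a b := by
    intro a b
    have e : Ric0 (x • R) = x • Ric0 R := by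
      unfold Ric0
      rw [n4, n6, smul_sub, smul_smul]
    rw [e]
    rfl
  unfold mT
  simp only [h, n6]
  rw [mul_sub, Finset.mul_sum]
  congr 1
  · refine sum_congr rfl fun a _ => ?_
    rw [Finset.mul_sum]
    exact sum_congr rfl fun b _ => by ring
  · ring

lemma mT_Id (hLN : RFn.Goal_LN) (hn : 1 ≤ n) (ε : ℝ) (M : M2 n) :
    mT ε M (Id4 n) = - (ε * ((n : ℝ) - 1)) := by
  obtain ⟨-, -, n3, n4, n5, n6, -, -, n9, n10, -⟩ := hLN n
  have h : Ric0 (Id4 n) = 0 := by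
    unfold Ric0
    rw [n9, n10 hn, sub_self]
  unfold mT
  rw [h, n10 hn]
  simp

/-! ### the family -/

/-- the array `Sg` -/
def SG (F : FB n T) (bet : F.B) : Ix n → Ix n → Ix n → Ix n → F.B := fun i j k l => Sg F bet i j k l

/-- the functional `m` in the algebra -/
def mB (F : FB n T) (ε : ℝ) (S : Ix n → Ix n → Ix n → Ix n → F.B) (M : Ix n → Ix n → ℝ) : F.B :=
  (∑ a, ∑ b, M a b • (INV.RS F S a b - INV.LS F S * F.P a b)) - ε • INV.LS F S

/-- the main part of the family -/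
def fm (F : FB n T) (K ε : ℝ) (S : Ix n → Ix n → Ix n → Ix n → F.B) (z w : Ix n → ℂ)
    (M : Ix n → Ix n → ℝ) : F.B :=
  K • INV.fq F S z w - mB F ε S M * INV.fq F F.I z w

/-- the family -/
def fam (F : FB n T) (K ε : ℝ) (bet : F.B) (z w : Ix n → ℂ) (M : Ix n → Ix n → ℝ) : F.B :=
  fm F K ε (SG F bet) z w M + (1 - INV.fq F F.I z w)

lemma ev_mB (hn : 2 ≤ n) (hDIC : G_DIC) (hRP2 : RFn.Goal_RP2) (F : FB n T) (ε : ℝ) (x : F.Z)
    (t : TI T) (ι : Ix n → Fin n → ℝ) (hι : Iso (F.nv x t) ι) (s : T4 n)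
    (S : Ix n → Ix n → Ix n → Ix n → F.B)
    (h1 : pull ι (fun i j k l => F.ev x t (S i j k l)) = s)
    (h2 : Hor (F.nv x t) (fun i j k l => F.ev x t (S i j k l))) (M : Ix n → Ix n → ℝ) :
    F.ev x t (mB F ε S M) = mT ε (pull2 ι M) s := by
  obtain ⟨-, -, -, -, l, -, -, -, q, -⟩ := hRP2 n _ ι _ hι h2
  obtain ⟨-, -, -, -, -, -, d, -⟩ := hDIC n hn _ ι _ hι h2
  have d' := d M
  rw [h1] at l q d'
  have e2 : F.ev x t (INV.LS F S) = lam s := by
    rw [l]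
    simp only [INV.LS, INV.RS, map_smul, map_sum, smul_eq_mul, Ric]
    ring
  have e3 : ∀ i j, F.ev x t (INV.RS F S i j) =
      Ric (fun i j k l => F.ev x t (S i j k l)) i j := fun i j => by
    simp only [INV.RS, Ric, map_sum]
  unfold mB mT
  rw [← d']
  simp only [map_sub, map_sum, map_smul, map_mul, smul_eq_mul, e2, e3, INV.ev_P]

lemma ev_fm (hn : 2 ≤ n) (hDIC : G_DIC) (hRP2 : RFn.Goal_RP2) (hRP3 : RFn.Goal_RP3) (F : FB n T)
    (K ε : ℝ) (x : F.Z) (t : TI T) (ι : Ix n → Fin n → ℝ) (hι : Iso (F.nv x t) ι) (s : T4 n)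
    (S : Ix n → Ix n → Ix n → Ix n → F.B)
    (h1 : pull ι (fun i j k l => F.ev x t (S i j k l)) = s)
    (h2 : Hor (F.nv x t) (fun i j k l => F.ev x t (S i j k l))) (z w : Ix n → ℂ)
    (M : Ix n → Ix n → ℝ) :
    F.ev x t (fm F K ε S z w M) = K * qf s (pullv ι z) (pullv ι w) -
      mT ε (pull2 ι M) s * qf (Id4 n) (pullv ι z) (pullv ι w) := by
  obtain ⟨-, -, -, -, -, -, -, q, -⟩ := hRP2 n _ ι _ hι h2
  obtain ⟨e1, e2, -⟩ := hRP3 n _ ι hι
  obtain ⟨-, -, -, -, -, -, -, q', -⟩ := hRP2 n _ ι _ hι e2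
  unfold fm
  rw [map_sub, map_smul, map_mul, INV.ev_fq, INV.ev_fq, INV.ev_I, q' z w, e1,
    ev_mB hn hDIC hRP2 F ε x t ι hι s S h1 h2 M, smul_eq_mul, q z w, h1]

lemma ev_fam (hn : 2 ≤ n) (hDIC : G_DIC) (hRP2 : RFn.Goal_RP2) (hRP3 : RFn.Goal_RP3) (F : FB n T)
    (K ε : ℝ) (bet : F.B) (x : F.Z) (t : TI T) (ι : Ix n → Fin n → ℝ) (hι : Iso (F.nv x t) ι)
    (s : T4 n) (h1 : pull ι (fun i j k l => F.ev x t (Sg F bet i j k l)) = s)
    (h2 : Hor (F.nv x t) (fun i j k l => F.ev x t (Sg F bet i j k l))) (z w : Ix n → ℂ)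
    (M : Ix n → Ix n → ℝ) :
    F.ev x t (fam F K ε bet z w M) = K * qf s (pullv ι z) (pullv ι w) -
      mT ε (pull2 ι M) s * qf (Id4 n) (pullv ι z) (pullv ι w) +
      (1 - qf (Id4 n) (pullv ι z) (pullv ι w)) := by
  obtain ⟨e1, e2, -⟩ := hRP3 n _ ι hι
  obtain ⟨-, -, -, -, -, -, -, q', -⟩ := hRP2 n _ ι _ hι e2
  unfold fam
  rw [map_add, map_sub, map_one, INV.ev_fq, INV.ev_I, q' z w, e1,
    ev_fm hn hDIC hRP2 hRP3 F K ε x t ι hι s (SG F bet) h1 h2 z w M]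

lemma Hop_mB (hPRD : RFn.Goal_PRD) (F : FB n T) (hF : F.Base) (ε : ℝ)
    (S : Ix n → Ix n → Ix n → Ix n → F.B) (M : Ix n → Ix n → ℝ) :
    F.Hop (mB F ε S M) = mB F ε (fun i j k l => F.Hop (S i j k l)) M := by
  obtain ⟨-, -, -, -, hP, -⟩ := (hPRD n T F).2 hF
  have h1 : ∀ i j, F.Hop (INV.RS F S i j) = INV.RS F (fun i j k l => F.Hop (S i j k l)) i j :=
    fun i j => by simp only [INV.RS, INV.Hop_eq, map_sum]
  have h2 : F.Hop (INV.LS F S) = INV.LS F (fun i j k l => F.Hop (S i j k l)) := by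
    have : ∀ i, INV.HopL F (INV.RS F S i i) =
        INV.RS F (fun i j k l => F.Hop (S i j k l)) i i := fun i => by
      rw [← INV.Hop_eq, h1]
    simp only [INV.LS, INV.Hop_eq, map_smul, map_sum, this]
  have h3 : ∀ a b, INV.HopL F (INV.RS F S a b - INV.LS F S * F.P a b) =
      INV.RS F (fun i j k l => F.Hop (S i j k l)) a b -
        INV.LS F (fun i j k l => F.Hop (S i j k l)) * F.P a b := by
    intro a b
    rw [map_sub, ← INV.Hop_eq, ← INV.Hop_eq, hP, h1, h2]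
  have h4 : INV.HopL F (INV.LS F S) = INV.LS F (fun i j k l => F.Hop (S i j k l)) := by
    rw [← INV.Hop_eq, h2]
  rw [INV.Hop_eq]
  unfold mB
  simp only [map_sub, map_sum, map_smul]
  rw [h4]
  congr 1
  refine sum_congr rfl fun a _ => sum_congr rfl fun b _ => ?_
  have := h3 a b
  rw [map_sub] at this
  rw [this]

lemma Hop_mulI (hPRD : RFn.Goal_PRD) (F : FB n T) (hF : F.Base) (g : F.B) (z w : Ix n → ℂ) :
    F.Hop (g * INV.fq F F.I z w) = F.Hop g * INV.fq F F.I z w := by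
  obtain ⟨-, -, -, -, -, hI, -⟩ := (hPRD n T F).2 hF
  have h : ∀ i j k l, INV.HopL F (g * F.I i j k l) = F.Hop g * F.I i j k l := fun i j k l => by
    rw [← INV.Hop_eq, hI]
  unfold INV.fq
  rw [INV.Hop_eq]
  simp only [Finset.mul_sum, mul_smul_comm, map_sum, map_smul, h]

lemma Hop_fam (hPRD : RFn.Goal_PRD) (F : FB n T) (hF : F.Base) (K ε : ℝ) (bet : F.B)
    (z w : Ix n → ℂ) (M : Ix n → Ix n → ℝ) :
    F.Hop (fam F K ε bet z w M) =
      fm F K ε (fun i j k l => F.Hop (Sg F bet i j k l)) z w M := by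
  have h1 : F.Hop (1 : F.B) = 0 := by
    simp [FB.Hop, FB.Lap]
  have h0 := Hop_mulI hPRD F hF 1 z w
  rw [one_mul, h1, zero_mul] at h0
  have h2 : F.Hop (fam F K ε bet z w M) = K • F.Hop (INV.fq F (SG F bet) z w) -
      F.Hop (mB F ε (SG F bet) M * INV.fq F F.I z w) +
      (F.Hop 1 - F.Hop (INV.fq F F.I z w)) := by
    simp only [fam, fm, INV.Hop_eq, map_add, map_sub, map_smul]
  rw [h2, h1, h0, Hop_mulI hPRD F hF, Hop_mB hPRD F hF, INV.Hop_fq, sub_zero, add_zero]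
  rfl

/-- the index set of the matrices -/
def KM (n : ℕ) : Set (Ix n → Ix n → ℝ) := {M | ∑ a, ∑ b, M a b ^ 2 ≤ 1}

lemma KM_compact (n : ℕ) : IsCompact (KM n) := by
  apply Metric.isCompact_of_isClosed_isBounded
  · exact isClosed_le (continuous_finsetSum _ fun a _ => continuous_finsetSum _ fun b _ =>
      ((continuous_apply b).comp (continuous_apply a)).pow 2) continuous_const
  · refine (Metric.isBounded_closedBall (x := (0 : Ix n → Ix n → ℝ)) (r := 1)).subset ?_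
    intro M hM
    have hM' : ∑ a, ∑ b, M a b ^ 2 ≤ 1 := hM
    rw [mem_closedBall_zero_iff, pi_norm_le_iff_of_nonneg zero_le_one]
    intro a
    rw [pi_norm_le_iff_of_nonneg zero_le_one]
    intro b
    rw [Real.norm_eq_abs]
    have h1 : M a b ^ 2 ≤ ∑ b, M a b ^ 2 :=
      Finset.single_le_sum (f := fun b => M a b ^ 2) (fun _ _ => sq_nonneg _) (mem_univ b)
    have h2 : ∑ b, M a b ^ 2 ≤ ∑ a, ∑ b, M a b ^ 2 :=
      Finset.single_le_sum (f := fun a => ∑ b, M a b ^ 2)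
        (fun _ _ => Finset.sum_nonneg fun _ _ => sq_nonneg _) (mem_univ a)
    exact abs_le_one_iff_mul_self_le_one.2 (by nlinarith)

lemma cont_mB (F : FB n T) (hF : F.Base) (ε : ℝ) (S : Ix n → Ix n → Ix n → Ix n → F.B) :
    Continuous (fun q : (Ix n → Ix n → ℝ) × (F.Z × TI T) =>
      F.ev q.2.1 q.2.2 (mB F ε S q.1)) := by
  simp only [mB, map_sub, map_sum, map_smul, smul_eq_mul]
  refine Continuous.sub ?_ ?_
  · refine continuous_finsetSum _ fun a _ => continuous_finsetSum _ fun b _ => ?_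
    have c1 : Continuous (fun q : (Ix n → Ix n → ℝ) × (F.Z × TI T) => q.1 a b) := by fun_prop
    refine c1.mul (Continuous.sub ?_ ?_)
    · exact (hF.cont (INV.RS F S a b)).comp continuous_snd
    · exact (hF.cont (INV.LS F S * F.P a b)).comp continuous_snd
  · exact continuous_const.mul ((hF.cont (INV.LS F S)).comp continuous_snd)

lemma cont_fam (F : FB n T) (hF : F.Base) (K ε : ℝ) (bet : F.B) :
    Continuous (fun q : ((INV.K1 n) × (KM n)) × (F.Z × TI T) =>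
      F.ev q.2.1 q.2.2 (fam F K ε bet q.1.1.1.1 q.1.1.1.2 q.1.2.1)) := by
  have c : Continuous (fun q : ((INV.K1 n) × (KM n)) × (F.Z × TI T) =>
      ((q.1.1.1, q.2) : ((Ix n → ℂ) × (Ix n → ℂ)) × (F.Z × TI T))) := by fun_prop
  have c' : Continuous (fun q : ((INV.K1 n) × (KM n)) × (F.Z × TI T) =>
      ((q.1.2.1, q.2) : (Ix n → Ix n → ℝ) × (F.Z × TI T))) := by fun_prop
  simp only [fam, fm, map_add, map_sub, map_one, map_smul, map_mul, smul_eq_mul]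
  refine Continuous.add (Continuous.sub ?_ ?_) (Continuous.sub continuous_const ?_)
  · exact continuous_const.mul ((INV.cont_fq F hF _).comp c)
  · exact ((cont_mB F hF ε _).comp c').mul ((INV.cont_fq F hF _).comp c)
  · exact (INV.cont_fq F hF _).comp c

/-- the touching point -/
lemma touch (hNW : G_NW) (hFG1 : G_FG1) (hFG2 : G_FG2) (hRP4 : RFn.Goal_RP4)
    (hLN : RFn.Goal_LN) (hCL : RFn.Goal_CL) (hn : 4 ≤ n) {ε A κ cB c2 K : ℝ} (hε : 0 < ε)
    (hA : 0 < A) (hcB0 : 0 < cB) (hK : 0 < K) (hκ : κ * (4 * A) = ε) (h2κ : c2 ≤ κ)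
    (h2c : c2 * (32 * (n : ℝ) ^ 6) ≤ cB) (hK1 : 2 * (n : ℝ) ^ 3 ≤ K * cB)
    (hK2 : 2 * ((2 * (n : ℝ) ^ 3 + ε * n) * (4 * (n : ℝ) ^ 4)) ≤ K * cB)
    (hK3 : 2 * (n : ℝ) ^ 3 + ε * n ≤ K) (hK4 : 2 * (n : ℝ) ^ 3 ≤ K * c2)
    (hcB : ∀ R : T4 n, FG R → 0 < lam R →
      (∀ (k : ℕ) v (X : Fin k → Fin n → ℝ), 1 ≤ k → k + 2 ≤ n → nrm v = 1 → Con X →
        κ * lam R ≤ elk k R v X) →
      ∀ z w, qf R z w ≤ cB * lam R * qf (Id4 n) z w →
        cB * lam R ^ 2 * qf (Id4 n) z w ≤ qf (Q R) z w)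
    {r : T4 n} (hr : FG r) (hlr : 0 < lam r) {β : ℝ} (hβ : 0 < β)
    (hS : ∀ (k : ℕ) v (X : Fin k → Fin n → ℝ), 1 ≤ k → k + 2 ≤ n → nrm v = 1 → Con X →
      Real.sqrt (hh r) ≤ ε / 2 * lam r + A * (elk k r v X + β))
    {z w : Fin n → ℂ} (hI : qf (Id4 n) z w = 1) {M : M2 n} (hM : ∑ a, ∑ b, M a b ^ 2 ≤ 1)
    (heq : K * qf (r + β • Id4 n) z w = mT ε M (r + β • Id4 n)) :
    0 < K * qf ((2 : ℝ) • Q (r + β • Id4 n) - (4 * β) • wdg (Ric (r + β • Id4 n)) 1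
        + (2 * ((n : ℝ) - 1) * β ^ 2 + -β ^ 2) • Id4 n) z w -
      mT ε M ((2 : ℝ) • Q (r + β • Id4 n) - (4 * β) • wdg (Ric (r + β • Id4 n)) 1
        + (2 * ((n : ℝ) - 1) * β ^ 2 + -β ^ 2) • Id4 n) := by
  have hn4 : (4 : ℝ) ≤ n := by exact_mod_cast hn
  have hn1 : 1 ≤ n := by omega
  obtain ⟨n1, n2, n3, n4, n5, n6, -, -, n9, n10, -, n12, n13, n14⟩ := hLN n
  obtain ⟨s, hs⟩ : ∃ s : T4 n, s = r + β • Id4 n := ⟨_, rfl⟩
  have hFs : FG s := by rw [hs]; exact (hFG1 n).2.2.1 β r hβ.le hr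
  have hls : lam s = lam r + β * ((n : ℝ) - 1) := by rw [hs, n5, n6, n10 hn1]
  have hls0 : 0 < lam s := by
    rw [hls]
    have : 0 ≤ β * ((n : ℝ) - 1) := mul_nonneg hβ.le (by linarith)
    linarith
  have hlrs : lam r ≤ lam s := by
    rw [hls]
    have : 0 ≤ β * ((n : ℝ) - 1) := mul_nonneg hβ.le (by linarith)
    linarith
  obtain ⟨-, hb, -, -, -, -, -, -, hh4, -, -, -⟩ := hFG2 n hn s hFs
  have hq0 : 0 ≤ qf s z w := ((hNW n hn).2.1 s hFs).2 z w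
  have hqr : 0 ≤ qf r z w := ((hNW n hn).2.1 r hr).2 z w
  have hqs : qf s z w = qf r z w + β := by rw [hs, n1, n2, hI, mul_one]
  rw [← hs] at heq ⊢
  have hcs := cs hM s
  have hsq : Real.sqrt (hh s) ≤ 2 * (n : ℝ) ^ 3 * lam s := by
    rw [Real.sqrt_le_left (by positivity)]
    calc hh s ≤ 4 * (n : ℝ) ^ 6 * lam s ^ 2 := hh4
      _ = _ := by ring
  have hm0 : mT ε M s = (∑ a, ∑ b, M a b * Ric0 s a b) - ε * lam s := rfl
  have hm1 : mT ε M s ≤ 2 * (n : ℝ) ^ 3 * lam s := by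
    have : 0 < ε * lam s := by positivity
    linarith
  have hm2 : ε * lam s ≤ Real.sqrt (hh s) := by
    have : 0 ≤ mT ε M s := by rw [← heq]; positivity
    linarith
  rcases le_or_gt β (c2 * lam s) with hc | hc
  · -- case (i)
    have hel : ∀ (k : ℕ) v (X : Fin k → Fin n → ℝ), 1 ≤ k → k + 2 ≤ n → nrm v = 1 → Con X →
        κ * lam s ≤ elk k s v X := by
      intro k v X k1 k2 hv hX
      have h1 := hS k v X k1 k2 hv hX
      have h2 : hh s = hh r := by rw [hs]; exact hh_add hLN hn1 r β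
      rw [← h2] at h1
      have h3 : elk k s v X = elk k r v X + β * elk k (Id4 n) v X := by
        rw [hs]; exact elk_add hLN k r β v X
      have h4 : 0 ≤ elk k (Id4 n) v X :=
        (hFG2 n hn _ (FG_Id hCL hFG1)).2.2.2.2.2.2.2.2.2.2.2 k v X k2 hX
      have h5 : elk k r v X ≤ elk k s v X := by
        rw [h3]
        have := mul_nonneg hβ.le h4
        linarith
      have h6 : A * elk k r v X ≤ A * elk k s v X := mul_le_mul_of_nonneg_left h5 hA.le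
      have h7 : A * β ≤ A * (κ * lam s) := by
        apply mul_le_mul_of_nonneg_left _ hA.le
        exact hc.trans (mul_le_mul_of_nonneg_right h2κ hls0.le)
      have h8 : ε / 2 * lam r ≤ ε / 2 * lam s := mul_le_mul_of_nonneg_left hlrs (by positivity)
      have h9 : A * (κ * lam s) ≤ A * elk k s v X := by
        have e1 : ε * lam s = 4 * (A * (κ * lam s)) := by rw [← hκ]; ring
        have e2 : ε / 2 * lam s = 2 * (A * (κ * lam s)) := by rw [← hκ]; ring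
        nlinarith
      exact le_of_mul_le_mul_left h9 hA
    have hq1 : qf s z w ≤ cB * lam s * qf (Id4 n) z w := by
      rw [hI, mul_one]
      have h1 : K * qf s z w ≤ K * (cB * lam s) := by
        rw [heq]
        calc mT ε M s ≤ 2 * (n : ℝ) ^ 3 * lam s := hm1
          _ ≤ K * cB * lam s := mul_le_mul_of_nonneg_right hK1 hls0.le
          _ = _ := by ring
      exact le_of_mul_le_mul_left h1 hK
    have hq2 := hcB s hFs hls0 hel z w hq1
    rw [hI, mul_one] at hq2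
    have hRs : (Ric s).IsSymm := ((hCL n).2.2.2.2.2.2.1 s hFs.1).1
    have hcw : IsCurv (wdg (Ric s) 1) := (hCL n).2.1 _ _ hRs Matrix.isSymm_one
    have hwb : ∀ a b c d, |wdg (Ric s) 1 a b c d| ≤ 2 * (n * (n * lam s)) :=
      STPaux.wdg_le (STPaux.ric_le hb)
    have hqw := abs_le.1 ((hRP4 n).2.2 _ _ hcw hwb z w)
    rw [hI, mul_one] at hqw
    have hmw := abs_le.1 (mT_le hn1 hε.le hM hwb)
    have hmQ := abs_le.1 (mT_le hn1 hε.le hM (Q_le hb))
    obtain ⟨D, hD⟩ : ∃ D : ℝ, D = 2 * (n : ℝ) ^ 3 + ε * n := ⟨_, rfl⟩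
    rw [← hD] at hmw hmQ hK2 hK3
    have hD0 : 0 < D := by rw [hD]; positivity
    have e0 : (2 : ℝ) • Q s - (4 * β) • wdg (Ric s) 1 = (2 : ℝ) • Q s +
        (-(4 * β)) • wdg (Ric s) 1 := by rw [neg_smul, sub_eq_add_neg]
    rw [e0, n1, n1, n2, n2, n2, mT_add hLN, mT_add hLN, mT_smul hLN,
      mT_smul hLN, mT_smul hLN, mT_Id hLN hn1, hI, mul_one]
    have t1 : K * (cB * lam s ^ 2) ≤ K * qf (Q s) z w := mul_le_mul_of_nonneg_left hq2 hK.le
    have t2 : K * qf (wdg (Ric s) 1) z w - mT ε M (wdg (Ric s) 1) ≤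
        4 * (n : ℝ) ^ 6 * K * lam s := by
      have a1 : K * qf (wdg (Ric s) 1) z w ≤ K * ((n : ℝ) ^ 4 * (2 * (n * (n * lam s)))) :=
        mul_le_mul_of_nonneg_left hqw.2 hK.le
      have a2 : D * (2 * (n * (n * lam s))) ≤ K * (2 * (n * (n * lam s))) :=
        mul_le_mul_of_nonneg_right hK3 (by positivity)
      have a3 : K * (2 * (n * (n * lam s))) ≤ 2 * (n : ℝ) ^ 6 * K * lam s := by
        have : (n : ℝ) ^ 2 ≤ (n : ℝ) ^ 6 := pow_le_pow_right₀ (by linarith) (by norm_num)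
        have := mul_le_mul_of_nonneg_right this (by positivity : 0 ≤ 2 * K * lam s)
        linarith
      linarith
    have t3 : β * (K * qf (wdg (Ric s) 1) z w - mT ε M (wdg (Ric s) 1)) ≤
        K * cB * lam s ^ 2 / 8 := by
      calc β * (K * qf (wdg (Ric s) 1) z w - mT ε M (wdg (Ric s) 1))
          ≤ β * (4 * (n : ℝ) ^ 6 * K * lam s) := mul_le_mul_of_nonneg_left t2 hβ.le
        _ ≤ (c2 * lam s) * (4 * (n : ℝ) ^ 6 * K * lam s) :=
            mul_le_mul_of_nonneg_right hc (by positivity)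
        _ = (c2 * (32 * (n : ℝ) ^ 6)) * (K * lam s ^ 2 / 8) := by ring
        _ ≤ cB * (K * lam s ^ 2 / 8) := mul_le_mul_of_nonneg_right h2c (by positivity)
        _ = _ := by ring
    have t4 : mT ε M (Q s) ≤ K * cB * lam s ^ 2 / 2 := by
      have a1 : D * (4 * (n : ℝ) ^ 2 * (n * lam s) ^ 2) =
          2 * (D * (4 * (n : ℝ) ^ 4)) * (lam s ^ 2 / 2) := by ring
      have a2 : 2 * (D * (4 * (n : ℝ) ^ 4)) * (lam s ^ 2 / 2) ≤ K * cB * (lam s ^ 2 / 2) :=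
        mul_le_mul_of_nonneg_right hK2 (by positivity)
      have a3 : K * cB * (lam s ^ 2 / 2) = K * cB * lam s ^ 2 / 2 := by ring
      linarith [hmQ.2]
    have t5 : 0 ≤ (2 * ((n : ℝ) - 1) * β ^ 2 + -β ^ 2) := by
      nlinarith [sq_nonneg β]
    have t6 : 0 ≤ K * (2 * ((n : ℝ) - 1) * β ^ 2 + -β ^ 2) := mul_nonneg hK.le t5
    have t7 : 0 ≤ (2 * ((n : ℝ) - 1) * β ^ 2 + -β ^ 2) * (ε * ((n : ℝ) - 1)) :=
      mul_nonneg t5 (mul_nonneg hε.le (by linarith))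
    have t8 : 0 < K * cB * lam s ^ 2 := by positivity
    nlinarith
  · -- case (ii)
    exfalso
    have h1 : K * β ≤ K * qf s z w := mul_le_mul_of_nonneg_left (by linarith) hK.le
    have h2 : K * (c2 * lam s) < K * β := mul_lt_mul_of_pos_left hc hK
    have h3 : 2 * (n : ℝ) ^ 3 * lam s ≤ K * c2 * lam s := mul_le_mul_of_nonneg_right hK4 hls0.le
    have h4 : K * (c2 * lam s) = K * c2 * lam s := by ring
    linarith

end SFBaux

open SFBaux in
theorem g_SFB (hEVG : G_EVG) (hDIC : G_DIC) (hMP3 : RFn.Goal_MP3) (hSFA : G_SFA) (hCPB : G_CPB)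
    (hNW : G_NW) (hFG1 : G_FG1) (hFG2 : G_FG2) (hRP1 : RFn.Goal_RP1) (hRP2 : RFn.Goal_RP2)
    (hRP3 : RFn.Goal_RP3) (hRP4 : RFn.Goal_RP4) (hLN : RFn.Goal_LN) (hCL : RFn.Goal_CL)
    (hPRD : RFn.Goal_PRD) (hWQ : RFn.Goal_WQ) : G_SFB := by
  intro n hn ε hε
  have hn4 : (4 : ℝ) ≤ n := by exact_mod_cast hn
  have hn1 : 1 ≤ n := by omega
  have hn2 : 2 ≤ n := by omega
  -- the constants
  have hA : ∀ k : ℕ, ∃ K > 0, 1 ≤ k → k + 2 ≤ n → ∀ (T : ℝ) (F : FB n T), F.Full → F.IsRF →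
      (∀ i j k l, F.Bd0 (F.R i j k l)) → (∀ z t, 0 < F.ev z t F.lam) → FGa F →
      SfA F k (ε / 2) K := by
    intro k
    by_cases h : 1 ≤ k ∧ k + 2 ≤ n
    · obtain ⟨K, hK, h2⟩ := hSFA n hn k h.1 h.2 (ε / 2) (by positivity)
      exact ⟨K, hK, fun _ _ => h2⟩
    · exact ⟨1, one_pos, fun h1 h2 => absurd ⟨h1, h2⟩ h⟩
  choose KA hKA0 hKA using hA
  obtain ⟨A, hAe⟩ : ∃ A : ℝ, A = ∑ k ∈ range n, KA k := ⟨_, rfl⟩
  have hAk : ∀ k, k + 2 ≤ n → KA k ≤ A := by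
    intro k hk
    rw [hAe]
    exact Finset.single_le_sum (f := KA) (fun j _ => (hKA0 j).le) (mem_range.2 (by omega))
  have hA0 : 0 < A := lt_of_lt_of_le (hKA0 0) (hAk 0 (by omega))
  obtain ⟨κ, hκe⟩ : ∃ κ : ℝ, κ = ε / (4 * A) := ⟨_, rfl⟩
  have hκ0 : 0 < κ := by rw [hκe]; positivity
  have hκ : κ * (4 * A) = ε := by rw [hκe]; field_simp
  obtain ⟨cB, hcB0, hcB⟩ := hCPB n hn κ hκ0
  obtain ⟨c2, hc2e⟩ : ∃ c2 : ℝ, c2 = min κ (cB / (32 * (n : ℝ) ^ 6)) := ⟨_, rfl⟩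
  have hc20 : 0 < c2 := by rw [hc2e]; exact lt_min hκ0 (by positivity)
  have h2κ : c2 ≤ κ := by rw [hc2e]; exact min_le_left _ _
  have h2c : c2 * (32 * (n : ℝ) ^ 6) ≤ cB := by
    rw [← le_div_iff₀ (by positivity), hc2e]; exact min_le_right _ _
  obtain ⟨D, hD⟩ : ∃ D : ℝ, D = 2 * (n : ℝ) ^ 3 + ε * n := ⟨_, rfl⟩
  have hD0 : 0 < D := by rw [hD]; positivity
  obtain ⟨K, hKe⟩ : ∃ K : ℝ, K = 2 * (n : ℝ) ^ 3 / cB + 2 * (D * (4 * (n : ℝ) ^ 4)) / cB + D +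
    2 * (n : ℝ) ^ 3 / c2 := ⟨_, rfl⟩
  have p1 : 0 < 2 * (n : ℝ) ^ 3 / cB := by positivity
  have p2 : 0 < 2 * (D * (4 * (n : ℝ) ^ 4)) / cB := by positivity
  have p3 : 0 < 2 * (n : ℝ) ^ 3 / c2 := by positivity
  have hK : 0 < K := by rw [hKe]; positivity
  have hK1 : 2 * (n : ℝ) ^ 3 ≤ K * cB := by
    rw [← div_le_iff₀ hcB0, hKe]; linarith
  have hK2 : 2 * (D * (4 * (n : ℝ) ^ 4)) ≤ K * cB := by
    rw [← div_le_iff₀ hcB0, hKe]; linarith
  have hK3 : D ≤ K := by rw [hKe]; linarith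
  have hK4 : 2 * (n : ℝ) ^ 3 ≤ K * c2 := by
    rw [← div_le_iff₀ hc20, hKe]; linarith
  rw [hD] at hK2 hK3
  refine ⟨K + ε * n, by positivity, fun T F hF hRF hBd hlam hFG => ?_⟩
  have hb := hF.toBase
  have htpos : ∀ t : TI T, 0 < (t : ℝ) := fun t => t.2.1
  -- the correction
  obtain ⟨bet, hbet⟩ := hb.comp (fun x : ℝ => x⁻¹) (Set.Ioi 0) isOpen_Ioi
    (by
      intro x hx
      exact (contDiffAt_inv ℝ (ne_of_gt hx)).contDiffWithinAt)
    F.tt (fun z t => by rw [hb.tt_ev]; exact htpos t)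
  have hch := hb.chain (fun x : ℝ => x⁻¹) (Set.Ioi 0) isOpen_Ioi
    (by
      intro x hx
      exact (contDiffAt_inv ℝ (ne_of_gt hx)).contDiffWithinAt)
    F.tt bet (fun z t => by rw [hb.tt_ev]; exact htpos t) hbet
  have hbev : ∀ z (t : TI T), F.ev z t bet = 1 / t := by
    intro z t
    rw [hbet, hb.tt_ev, one_div]
  have hbH : ∀ a, F.H a bet = 0 := by
    intro a
    apply hb.ext
    intro z t
    rw [(hch z t).1 a, hb.tt_H, map_zero, mul_zero]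
  have hbD : ∀ z (t : TI T), F.ev z t (F.D bet) = -F.ev z t bet ^ 2 := by
    intro z t
    have ht := htpos t
    rw [(hch z t).2.2, hb.tt_D, map_one, mul_one, hbev, hb.tt_ev, deriv_inv]
    field_simp
  have hbpos : ∀ z t, 0 < F.ev z t bet := by
    intro z t
    rw [hbev]
    have := htpos t
    positivity
  -- pointwise data
  have hEV := fun z t ι hι => hEVG n hn2 T F hF hRF bet hbH z t ι hι
  have hnu : ∀ z t, ∑ i, F.nv z t i ^ 2 = 1 := fun z t => by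
    have := congrArg (F.ev z t) hb.nunu
    simpa [FB.nv, map_sum, map_pow] using this
  have hI0 : ∀ z w, 0 ≤ qf (Id4 n) z w := fun z w =>
    (hWQ n 0 0 0 (by simp [Matrix.IsSymm]) (fun v => by simp [rq]) (fun v => by simp [rq]) z w).1
  obtain ⟨n1, n2, n3, n4, n5, n6, -, -, n9, n10, -, n12, n13, n14⟩ := hLN n
  have hlam' : ∀ z t ι, Iso (F.nv z t) ι → 0 < lam (pull ι (F.rv z t)) := by
    intro z t ι hι
    obtain ⟨-, -, -, -, e5, -⟩ := hEV z t ι hι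
    rw [← e5]
    exact hlam z t
  have hCs : ∀ z t ι, Iso (F.nv z t) ι → IsCurv (pull ι (F.rv z t) + F.ev z t bet • Id4 n) :=
    fun z t ι hι => ((hFG1 n).2.2.1 _ _ (hbpos z t).le (hFG z t ι hι)).1
  have hI1 : ∀ z t ι, Iso (F.nv z t) ι → ∀ q : INV.K1 n,
      qf (Id4 n) (pullv ι q.1.1) (pullv ι q.1.2) ≤ 1 := by
    intro z t ι hι q
    obtain ⟨-, -, -, -, -, -, -, -, -, -, -, qle⟩ := hRP3 n _ ι hι
    exact (qle _ _).trans (INV.qI_le q.2.1 q.2.2)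
  have hM1 : ∀ z t ι, Iso (F.nv z t) ι → ∀ M : KM n,
      ∑ a, ∑ b, (pull2 ι (M.1 : M2 (n + 1))) a b ^ 2 ≤ 1 := by
    intro z t ι hι M
    obtain ⟨-, e2, -⟩ := hEV z t ι hι
    obtain ⟨-, -, -, -, -, -, -, d8, -⟩ := hDIC n hn2 _ ι _ hι e2
    exact (d8 M.1).trans M.2
  have : CompactSpace (INV.K1 n) := isCompact_iff_compactSpace.1 (INV.K1_compact n)
  have : CompactSpace (KM n) := isCompact_iff_compactSpace.1 (KM_compact n)
  have hmain : ∀ (k : (INV.K1 n) × (KM n)) z (t : TI T),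
      0 < F.ev z t (fam F K ε bet k.1.1.1 k.1.1.2 k.2.1) := by
    intro k z t
    refine hMP3 n T F hb ((INV.K1 n) × (KM n)) (fun k => fam F K ε bet k.1.1.1 k.1.1.2 k.2.1)
      (cont_fam F hb K ε bet) 0 t le_rfl t.2.2 ?_ ?_ k z t t.2.1 le_rfl
    · -- near time zero
      obtain ⟨C, t0, hC0, ht0, ht0T, hC⟩ := STPaux.bd0_unif F hBd
      obtain ⟨Cr, hCr⟩ : ∃ Cr : ℝ, Cr = ((n : ℝ) + 1) ^ 4 * C := ⟨_, rfl⟩
      have hCr0 : 0 ≤ Cr := by rw [hCr]; positivity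
      refine ⟨min t0 (K / (2 * (n : ℝ) ^ 3 * Cr + 1)), lt_min ht0 (by positivity), ?_⟩
      intro k z t ht0' ht
      rw [zero_add] at ht
      have ht1 : (t : ℝ) < t0 := lt_of_lt_of_le ht (min_le_left _ _)
      have ht2 : (t : ℝ) < K / (2 * (n : ℝ) ^ 3 * Cr + 1) := lt_of_lt_of_le ht (min_le_right _ _)
      have htp := htpos t
      obtain ⟨ι, hι⟩ := hRP1 n (F.nv z t) (hnu z t)
      obtain ⟨e1, e2, e3, e4, e5, e6, e7⟩ := hEV z t ι hι
      have hr : ∀ i j k l, |pull ι (F.rv z t) i j k l| ≤ Cr := by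
        rw [hCr]
        exact STPaux.pull_le hι (hC z t ht1)
      show 0 < F.ev z t (fam F K ε bet k.1.1.1 k.1.1.2 k.2.1)
      rw [ev_fam hn2 hDIC hRP2 hRP3 F K ε bet z t ι hι _ e1 e2]
      have hq := hI0 (pullv ι k.1.1.1) (pullv ι k.1.1.2)
      have hq1 := hI1 z t ι hι k.1
      have hM := hM1 z t ι hι k.2
      obtain ⟨M, hMe⟩ : ∃ M : M2 n, M = pull2 ι (k.2.1 : M2 (n + 1)) := ⟨_, rfl⟩
      rw [← hMe] at hM ⊢
      have hm : mT ε M (pull ι (F.rv z t) + F.ev z t bet • Id4 n) ≤ 2 * (n : ℝ) ^ 3 * Cr := by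
        have h1 := (abs_le.1 (mT_le hn1 le_rfl hM hr)).2
        unfold mT at h1 ⊢
        rw [Ric0_add hLN hn1]
        have h2 : 0 < lam (pull ι (F.rv z t) + F.ev z t bet • Id4 n) := by
          rw [n5, n6, n10 hn1]
          have := hlam' z t ι hι
          have : 0 ≤ F.ev z t bet * ((n : ℝ) - 1) := mul_nonneg (hbpos z t).le (by linarith)
          linarith
        have h3 : 0 < ε * lam (pull ι (F.rv z t) + F.ev z t bet • Id4 n) := by positivity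
        linarith
      have hqr : 0 ≤ qf (pull ι (F.rv z t)) (pullv ι k.1.1.1) (pullv ι k.1.1.2) :=
        ((hNW n hn).2.1 _ (hFG z t ι hι)).2 _ _
      rw [n1, n2]
      obtain ⟨u, hu⟩ : ∃ u : ℝ, u = qf (Id4 n) (pullv ι k.1.1.1) (pullv ι k.1.1.2) := ⟨_, rfl⟩
      rw [← hu] at hq hq1 ⊢
      have hβ : 2 * (n : ℝ) ^ 3 * Cr < K * F.ev z t bet := by
        rw [hbev]
        have h1 : (t : ℝ) * (2 * (n : ℝ) ^ 3 * Cr + 1) < K := by
          rwa [lt_div_iff₀ (by positivity)] at ht2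
        rw [mul_one_div, lt_div_iff₀ htp]
        nlinarith
      have g1 : 0 ≤ K * qf (pull ι (F.rv z t)) (pullv ι k.1.1.1) (pullv ι k.1.1.2) :=
        mul_nonneg hK.le hqr
      have g2 : mT ε M (pull ι (F.rv z t) + F.ev z t bet • Id4 n) * u ≤
          2 * (n : ℝ) ^ 3 * Cr * u := mul_le_mul_of_nonneg_right hm hq
      rcases hq.eq_or_lt with h | h
      · rw [← h] at g2 ⊢
        linarith
      · have g3 : 2 * (n : ℝ) ^ 3 * Cr * u < K * F.ev z t bet * u := mul_lt_mul_of_pos_right hβ h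
        linarith
    · -- touching point
      intro k z t' ht0' htT hz hall
      obtain ⟨ι, hι⟩ := hRP1 n (F.nv z t') (hnu z t')
      obtain ⟨e1, e2, e3, e4, e5, e6, e7⟩ := hEV z t' ι hι
      have e8 := e4 _ rfl
      rw [hbD] at e8
      have hq := hI0 (pullv ι k.1.1.1) (pullv ι k.1.1.2)
      have hq1 := hI1 z t' ι hι k.1
      have hM := hM1 z t' ι hι k.2
      have hz' : F.ev z t' (fam F K ε bet k.1.1.1 k.1.1.2 k.2.1) = 0 := hz
      rw [ev_fam hn2 hDIC hRP2 hRP3 F K ε bet z t' ι hι _ e1 e2] at hz'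
      have hcs := hCs z t' ι hι
      by_cases hu0 : qf (Id4 n) (pullv ι k.1.1.1) (pullv ι k.1.1.2) = 0
      · exfalso
        rw [hu0, ((hRP4 n).2.1 _ _).1 hu0 _ hcs] at hz'
        linarith
      obtain ⟨z', w', m1, m2, -, m4, m5⟩ := ((hRP4 n).2.1 _ _).2 hu0
      obtain ⟨-, -, -, -, -, -, -, -, pz, -, -, -⟩ := hRP3 n _ ι hι
      have hk : 0 ≤ F.ev z t' (fam F K ε bet (fun i => ∑ a, (ι i a : ℂ) * z' a)
          (fun i => ∑ a, (ι i a : ℂ) * w' a) k.2.1) :=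
        hall (⟨(fun i => ∑ a, (ι i a : ℂ) * z' a, fun i => ∑ a, (ι i a : ℂ) * w' a), by
          refine ⟨?_, ?_⟩
          · show ∑ i, Complex.normSq (∑ a, (ι i a : ℂ) * z' a) ≤ 1
            rw [INV.normSq_iota hι, m1]
          · show ∑ i, Complex.normSq (∑ a, (ι i a : ℂ) * w' a) ≤ 1
            rw [INV.normSq_iota hι, m2]⟩, k.2) z
      rw [ev_fam hn2 hDIC hRP2 hRP3 F K ε bet z t' ι hι _ e1 e2, pz, pz, m4] at hk
      have m6 := m5 _ hcs
      have hu : 0 < qf (Id4 n) (pullv ι k.1.1.1) (pullv ι k.1.1.2) := lt_of_le_of_ne hq (Ne.symm hu0)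
      obtain ⟨u, hue⟩ : ∃ u : ℝ, u = qf (Id4 n) (pullv ι k.1.1.1) (pullv ι k.1.1.2) := ⟨_, rfl⟩
      rw [← hue] at hz' hu hq1 m6
      rw [m6] at hz'
      have h1 : 0 ≤ u * (K * qf (pull ι (F.rv z t') + F.ev z t' bet • Id4 n) z' w' -
          mT ε (pull2 ι k.2.1) (pull ι (F.rv z t') + F.ev z t' bet • Id4 n)) :=
        mul_nonneg hu.le (by linarith)
      have hu1 : u = 1 := by nlinarith
      have heq : K * qf (pull ι (F.rv z t') + F.ev z t' bet • Id4 n) (pullv ι k.1.1.1)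
          (pullv ι k.1.1.2) = mT ε (pull2 ι k.2.1)
          (pull ι (F.rv z t') + F.ev z t' bet • Id4 n) := by
        rw [m6, hu1]
        rw [hu1] at hz'
        linarith
      have hI : qf (Id4 n) (pullv ι k.1.1.1) (pullv ι k.1.1.2) = 1 := by rw [← hue, hu1]
      show 0 < F.ev z t' (F.Hop (fam F K ε bet k.1.1.1 k.1.1.2 k.2.1))
      rw [Hop_fam hPRD F hb, ev_fm hn2 hDIC hRP2 hRP3 F K ε z t' ι hι _ _ e8 e3, hI, mul_one]
      refine touch hNW hFG1 hFG2 hRP4 hLN hCL hn hε hA0 hcB0 hK hκ h2κ h2c hK1 hK2 hK3 hK4 hcB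
        (hFG z t' ι hι) (hlam' z t' ι hι) (hbpos z t') ?_ hI hM heq
      intro k' v X k1 k2 hv hX
      have h2 := hKA k' k1 k2 T F hF hRF hBd hlam hFG z t' ι hι v X hv hX
      have h3 : 0 ≤ elk k' (pull ι (F.rv z t')) v X :=
        (hFG2 n hn _ (hFG z t' ι hι)).2.2.2.2.2.2.2.2.2.2.2 k' v X k2 hX
      rw [e5, ← hbev z t'] at h2
      have h4 : KA k' * (elk k' (pull ι (F.rv z t')) v X + F.ev z t' bet) ≤
          A * (elk k' (pull ι (F.rv z t')) v X + F.ev z t' bet) := by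
        apply mul_le_mul_of_nonneg_right (hAk k' k2)
        have := hbpos z t'
        linarith
      linarith
  -- the conclusion
  intro z t ι hι z' w'
  obtain ⟨e1, e2, e3, e4, e5, e6, e7⟩ := hEV z t ι hι
  have htp := htpos t
  have hFr := hFG z t ι hι
  by_cases hq : qf (Id4 n) z' w' = 0
  · rw [hq, ((hRP4 n).2.1 z' w').1 hq _ e7]
    simp
  obtain ⟨z2, w2, m1, m2, -, m4, m5⟩ := ((hRP4 n).2.1 z' w').2 hq
  rw [m5 _ e7]
  have hq0 := hI0 z' w'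
  have hqr : 0 ≤ qf (pull ι (F.rv z t)) z2 w2 := ((hNW n hn).2.1 _ hFr).2 _ _
  have hfin : Real.sqrt (hh (pull ι (F.rv z t))) ≤ ε * F.ev z t F.lam + (K + ε * n) / t +
      (K + ε * n) * qf (pull ι (F.rv z t)) z2 w2 := by
    have r1 : 0 < ε * F.ev z t F.lam := mul_pos hε (hlam z t)
    have r2 : 0 < (K + ε * n) / t := by positivity
    have r3 : 0 ≤ (K + ε * n) * qf (pull ι (F.rv z t)) z2 w2 := by positivity
    by_cases hh0 : hh (pull ι (F.rv z t)) = 0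
    · rw [hh0, Real.sqrt_zero]
      linarith
    have hhn : 0 ≤ hh (pull ι (F.rv z t)) :=
      Finset.sum_nonneg fun _ _ => Finset.sum_nonneg fun _ _ => sq_nonneg _
    have hhp : 0 < hh (pull ι (F.rv z t)) := lt_of_le_of_ne hhn (Ne.symm hh0)
    obtain ⟨R, hR⟩ : ∃ R : ℝ, R = Real.sqrt (hh (pull ι (F.rv z t))) := ⟨_, rfl⟩
    have hR0 : 0 < R := by rw [hR]; exact Real.sqrt_pos.2 hhp
    have hR2 : R ^ 2 = hh (pull ι (F.rv z t)) := by rw [hR]; exact Real.sq_sqrt hhn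
    obtain ⟨M0, hM0⟩ : ∃ M0 : M2 n, M0 = fun a b => Ric0 (pull ι (F.rv z t)) a b / R := ⟨_, rfl⟩
    have hM0s : ∑ a, ∑ b, M0 a b ^ 2 = 1 := by
      rw [hM0]
      simp only [div_pow, ← Finset.sum_div]
      rw [hR2]
      exact div_self hh0
    obtain ⟨-, -, -, -, -, -, -, -, d9, -⟩ := hDIC n hn2 _ ι _ hι e2
    obtain ⟨d1, d2⟩ := d9 M0
    obtain ⟨-, -, -, -, -, -, -, -, pz, -, -, -⟩ := hRP3 n _ ι hι
    have hk := hmain (⟨(fun i => ∑ a, (ι i a : ℂ) * z2 a, fun i => ∑ a, (ι i a : ℂ) * w2 a), by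
          refine ⟨?_, ?_⟩
          · show ∑ i, Complex.normSq (∑ a, (ι i a : ℂ) * z2 a) ≤ 1
            rw [INV.normSq_iota hι, m1]
          · show ∑ i, Complex.normSq (∑ a, (ι i a : ℂ) * w2 a) ≤ 1
            rw [INV.normSq_iota hι, m2]⟩,
          ⟨(fun i j => ∑ a, ∑ b, ι i a * ι j b * M0 a b), by
            show ∑ i, ∑ j, (∑ a, ∑ b, ι i a * ι j b * M0 a b) ^ 2 ≤ 1
            rw [d2, hM0s]⟩) z t
    have hk' : 0 < F.ev z t (fam F K ε bet (fun i => ∑ a, (ι i a : ℂ) * z2 a)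
        (fun i => ∑ a, (ι i a : ℂ) * w2 a) (fun i j => ∑ a, ∑ b, ι i a * ι j b * M0 a b)) := hk
    rw [ev_fam hn2 hDIC hRP2 hRP3 F K ε bet z t ι hι _ e1 e2, pz, pz, m4, d1, n1, n2, m4] at hk'
    have hm : mT ε M0 (pull ι (F.rv z t) + F.ev z t bet • Id4 n) =
        R - ε * (F.ev z t F.lam + F.ev z t bet * ((n : ℝ) - 1)) := by
      unfold mT
      rw [Ric0_add hLN hn1, n5, n6, n10 hn1, e5]
      congr 1
      rw [hM0]
      have : ∀ a b, Ric0 (pull ι (F.rv z t)) a b / R * Ric0 (pull ι (F.rv z t)) a b =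
          Ric0 (pull ι (F.rv z t)) a b ^ 2 / R := fun a b => by ring
      simp only [this, ← Finset.sum_div]
      have h9 : ∑ a, ∑ b, Ric0 (pull ι (F.rv z t)) a b ^ 2 = R ^ 2 := by rw [hR2]; rfl
      rw [h9, sq, mul_div_assoc, div_self hR0.ne', mul_one]
    rw [hm, hbev] at hk'
    rw [← hR]
    have g1 : (K + ε * n) / t = K * (1 / t) + ε * (1 / t * ((n : ℝ) - 1)) + ε * (1 / t) := by
      ring
    have g2 : 0 < ε * (1 / (t : ℝ)) := by positivity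
    have g3 : 0 ≤ ε * n * qf (pull ι (F.rv z t)) z2 w2 := by positivity
    rw [g1]
    nlinarith
  have := mul_le_mul_of_nonneg_right hfin hq0
  linarith

end

end Pool.Agent.Helper47.FLG
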